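import Pool.Agent.N520.RO.Stm4a
import Pool.Agent.N520.RO.Vs

/-!
Project RO, second part: discrete block triangular groups with a bounded derived subgroup are
virtually solvable (helper494, after Pool/Agent/N520/RO/Vs.lean and Pool/Agent/N383/RO/Idx.lean)
-/

set_option autoImplicit false

open Set Filter Topology

namespace Pool.Agent.N494.RO

open Pool.Agent.N520.RO

theorem t_grp2 : S_GRP2 := by
  intro Λ _ N _ j hNs hND hidx
  obtain ⟨D, hD⟩ : ∃ D : Subgroup Λ, D = derivedSeries Λ j := ⟨_, rfl⟩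
  have hDn : D.Normal := by rw [hD]; infer_instance
  rw [← hD] at hND hidx
  have hFn : (D.map (QuotientGroup.mk' N)).Normal :=
    hDn.map _ (QuotientGroup.mk'_surjective N)
  have hFf : Finite (D.map (QuotientGroup.mk' N)) := by
    apply Nat.finite_of_card_ne_zero
    rw [← Subgroup.relIndex_ker, QuotientGroup.ker_mk']
    exact hidx
  have hA : Finite (MulAut (D.map (QuotientGroup.mk' N))) :=
    Finite.of_injective (fun f : MulAut (D.map (QuotientGroup.mk' N)) =>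
      (f : D.map (QuotientGroup.mk' N) → D.map (QuotientGroup.mk' N))) DFunLike.coe_injective
  let ψ : Λ →* MulAut (D.map (QuotientGroup.mk' N)) :=
    (MulAut.conjNormal (H := D.map (QuotientGroup.mk' N))).comp (QuotientGroup.mk' N)
  refine ⟨ψ.ker, inferInstance, ?_⟩
  obtain ⟨C, hC⟩ : ∃ C : Subgroup Λ, C = ψ.ker := ⟨_, rfl⟩
  rw [← hC]
  -- elements of `C` commute with elements of `D` modulo `N`
  have hcomm : ∀ a ∈ C, ∀ b ∈ D, QuotientGroup.mk' N a * QuotientGroup.mk' N b =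
      QuotientGroup.mk' N b * QuotientGroup.mk' N a := by
    intro a ha b hb
    rw [hC, MonoidHom.mem_ker] at ha
    have h1 : ψ a ⟨QuotientGroup.mk' N b, Subgroup.mem_map_of_mem _ hb⟩ =
        ⟨QuotientGroup.mk' N b, Subgroup.mem_map_of_mem _ hb⟩ := by
      rw [ha]
      rfl
    have h2 := congrArg Subtype.val h1
    have h3 : QuotientGroup.mk' N a * QuotientGroup.mk' N b * (QuotientGroup.mk' N a)⁻¹ =
        QuotientGroup.mk' N b := h2
    rwa [mul_inv_eq_iff_eq_mul] at h3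
  -- the group `E`
  obtain ⟨E, hE⟩ : ∃ E : Subgroup Λ, E = D ⊓ C := ⟨_, rfl⟩
  have hNE : Group.IsSolvable (N ⊓ E : Subgroup Λ) :=
    Group.isSolvable_of_isSolvable_injective (f := Subgroup.inclusion (inf_le_left : N ⊓ E ≤ N))
      (Subgroup.inclusion_injective _)
  let φ : E →* Λ ⧸ N := (QuotientGroup.mk' N).comp E.subtype
  have hφ : Group.IsSolvable φ.range := by
    refine Group.isSolvable_of_comm ?_
    rintro ⟨_, ⟨a, rfl⟩⟩ ⟨_, ⟨b, rfl⟩⟩
    apply Subtype.ext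
    have ha : a.1 ∈ D ⊓ C := by rw [← hE]; exact a.2
    have hb : b.1 ∈ D ⊓ C := by rw [← hE]; exact b.2
    exact hcomm a.1 ha.2 b.1 hb.1
  have hEs : Group.IsSolvable E := by
    refine Group.isSolvable_of_ker_le_range (Subgroup.inclusion (inf_le_right : N ⊓ E ≤ E))
      φ.rangeRestrict ?_
    intro x hx
    rw [MonoidHom.ker_rangeRestrict, MonoidHom.mem_ker] at hx
    have h1 : x.1 ∈ N := (QuotientGroup.eq_one_iff x.1).1 hx
    exact ⟨⟨x.1, h1, x.2⟩, rfl⟩
  have hEC : E ≤ C := by rw [hE]; exact inf_le_right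
  have hab : Group.IsSolvable (Λ ⧸ D) := by
    refine ⟨j, ?_⟩
    rw [← map_derivedSeries_eq (QuotientGroup.mk'_surjective D) j, ← hD]
    exact QuotientGroup.map_mk'_self D
  refine Group.isSolvable_of_ker_le_range (Subgroup.inclusion hEC)
    ((QuotientGroup.mk' D).comp C.subtype) ?_
  intro x hx
  rw [MonoidHom.mem_ker] at hx
  have h1 : x.1 ∈ D := (QuotientGroup.eq_one_iff x.1).1 hx
  have h2 : x.1 ∈ E := by rw [hE]; exact ⟨h1, x.2⟩
  exact ⟨⟨x.1, h2⟩, rfl⟩

section gr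
variable {V : Type} [NormedAddCommGroup V] [NormedSpace ℝ V]
variable {Λ : Type} [Group Λ] {θ : Λ →* (V →L[ℝ] V)ˣ} {m : ℕ} {π : Fin m → V →L[ℝ] V}

theorem gr_mul (hS : Sys m π) (hU : Upper π θ) (l l' : Λ) :
    gr θ π (l * l') = gr θ π l * gr θ π l' := by
  have h1 : gr θ π l * gr θ π l' = ∑ i, (π i * (θ l : V →L[ℝ] V) * π i) * gr θ π l' := by
    conv_lhs => rw [gr]
    rw [Finset.sum_mul]
  rw [h1]
  unfold gr
  refine Finset.sum_congr rfl fun i _ => ?_
  have h2 := blk_gr (θ := θ) hS i l'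
  unfold gr at h2
  rw [mul_assoc (π i * (θ l : V →L[ℝ] V)) (π i), h2, blk_mul hS hU]
  have h3 : π i * π i = π i := by simpa using hS.orth i i
  calc (π i * (θ l : V →L[ℝ] V) * π i) * (π i * (θ l' : V →L[ℝ] V) * π i)
      = π i * (θ l : V →L[ℝ] V) * (π i * π i) * (θ l' : V →L[ℝ] V) * π i := by
        simp only [mul_assoc]
    _ = _ := by rw [h3]; simp only [mul_assoc]

/-- the diagonal part as a representation -/
noncomputable def grU (θ : Λ →* (V →L[ℝ] V)ˣ) (π : Fin m → V →L[ℝ] V) (hS : Sys m π)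
    (hU : Upper π θ) : Λ →* (V →L[ℝ] V)ˣ where
  toFun l := ⟨gr θ π l, gr θ π l⁻¹, by rw [← gr_mul hS hU, mul_inv_cancel, gr_one hS],
    by rw [← gr_mul hS hU, inv_mul_cancel, gr_one hS]⟩
  map_one' := Units.ext (gr_one hS)
  map_mul' l l' := Units.ext (gr_mul hS hU l l')

end gr

theorem vs2_inj (h1 : S_ZAS) (h2 : S_TRIA) (h3 : S_TRIB) (h5 : S_IDX) (h6 : S_GRP2) (h7 : S_TR)
    (V : Type) [NormedAddCommGroup V] [NormedSpace ℝ V] [FiniteDimensional ℝ V]
    (Λ : Type) [Group Λ] (θ : Λ →* (V →L[ℝ] V)ˣ) (m : ℕ) (π : Fin m → V →L[ℝ] V)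
    (hinj : Function.Injective θ) (hD : Disc θ) (hS : Sys m π) (hU : Upper π θ)
    (hB : ∃ (j : ℕ) (C : ℝ), ∀ l ∈ derivedSeries Λ j, ∀ i,
      ‖π i * (θ l : V →L[ℝ] V) * π i‖ ≤ C) :
    ∃ C : Subgroup Λ, C.FiniteIndex ∧ Group.IsSolvable C := by
  obtain ⟨j, C0, hC0⟩ := hB
  set C : ℝ := max C0 0 with hCdef
  have hC : 0 ≤ C := le_max_right _ _
  set C1 : ℝ := ∑ _i : Fin m, C with hC1
  have hC10 : 0 ≤ C1 := Finset.sum_nonneg fun _ _ => hC
  have hb1 : ∀ l ∈ derivedSeries Λ j, ‖gr θ π l‖ ≤ C1 := fun l hl =>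
    (norm_sum_le _ _).trans (Finset.sum_le_sum fun i _ => (hC0 l hl i).trans (le_max_left _ _))
  -- the trace
  let trL : (V →L[ℝ] V) →ₗ[ℝ] ℝ := (LinearMap.trace ℝ V).comp (ContinuousLinearMap.coeLM ℝ)
  have hfdL : FiniteDimensional ℝ (V →L[ℝ] V) := inferInstance
  let F : (V →L[ℝ] V) →L[ℝ] ℝ := LinearMap.toContinuousLinearMap trL
  have hF : ∀ A : V →L[ℝ] V, F A = LinearMap.trace ℝ V (A : V →ₗ[ℝ] V) := fun A => rfl
  have hF1 : F 1 = (Module.finrank ℝ V : ℝ) := by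
    rw [hF]
    exact LinearMap.trace_one ℝ V
  have hFc : ∀ A B : V →L[ℝ] V, F (A * B) = F (B * A) := by
    intro A B
    rw [hF, hF]
    exact LinearMap.trace_mul_comm ℝ (A : V →ₗ[ℝ] V) (B : V →ₗ[ℝ] V)
  have hFb : ∀ A : V →L[ℝ] V, |F A| ≤ ‖F‖ * ‖A‖ := fun A => F.le_opNorm A
  -- distance from the identity
  obtain ⟨K, hK⟩ := h7 V (derivedSeries Λ j) ((grU θ π hS hU).comp (derivedSeries Λ j).subtype) C1
    (fun l => hb1 l.1 l.2)
  have hK' : ∀ l ∈ derivedSeries Λ j, ‖gr θ π l - 1‖ ^ 2 ≤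
      K * ((Module.finrank ℝ V : ℝ) - F (gr θ π l)) := fun l hl => hK ⟨l, hl⟩
  set η : ℝ := 1 / (256 * (|K| + 1)) with hη
  have hη0 : 0 < η := by positivity
  have hsmall : ∀ l ∈ derivedSeries Λ j, |(Module.finrank ℝ V : ℝ) - F (gr θ π l)| ≤ η →
      ‖gr θ π l - 1‖ ≤ 1 / 16 := by
    intro l hl hle
    have e1 := hK' l hl
    have e2 : K * ((Module.finrank ℝ V : ℝ) - F (gr θ π l)) ≤ |K| * η := by
      refine (le_abs_self _).trans ?_
      rw [abs_mul]
      exact mul_le_mul_of_nonneg_left hle (abs_nonneg _)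
    have e3 : |K| * η ≤ 1 / 256 := by
      rw [hη]
      have : |K| * (1 / (256 * (|K| + 1))) = (|K| / (|K| + 1)) * (1 / 256) := by
        field_simp
      rw [this]
      have h8 : |K| / (|K| + 1) ≤ 1 := by
        rw [div_le_one (by positivity)]
        linarith
      have := mul_le_mul_of_nonneg_right h8 (by norm_num : (0 : ℝ) ≤ 1 / 256)
      linarith
    have e4 : ‖gr θ π l - 1‖ ^ 2 ≤ (1 / 16) ^ 2 := by
      norm_num
      linarith
    exact (sq_le_sq₀ (norm_nonneg _) (by norm_num)).1 e4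
  let X : Set Λ := {l | l ∈ derivedSeries Λ j ∧ |(Module.finrank ℝ V : ℝ) - F (gr θ π l)| ≤ η ∧
    |(Module.finrank ℝ V : ℝ) - F (gr θ π l⁻¹)| ≤ η}
  have hconj : ∀ g l : Λ, F (gr θ π (g * l * g⁻¹)) = F (gr θ π l) := by
    intro g l
    rw [gr_mul hS hU, hFc, ← gr_mul hS hU, inv_mul_cancel_left]
  have hXconj : ∀ l ∈ X, ∀ g, g * l * g⁻¹ ∈ X := by
    intro l hl g
    refine ⟨(inferInstance : (derivedSeries Λ j).Normal).conj_mem l hl.1 g, ?_, ?_⟩
    · rw [hconj]; exact hl.2.1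
    · have e2 : (g * l * g⁻¹)⁻¹ = g * l⁻¹ * g⁻¹ := by group
      rw [e2, hconj]; exact hl.2.2
  have hXinv : ∀ l ∈ X, l⁻¹ ∈ X := by
    intro l hl
    refine ⟨inv_mem hl.1, hl.2.2, ?_⟩
    rw [inv_inv]
    exact hl.2.1
  let N : Subgroup Λ := Subgroup.closure X
  have hN : N.Normal := by
    refine ⟨fun n hn g => ?_⟩
    induction hn using Subgroup.closure_induction with
    | mem x hx => exact Subgroup.subset_closure (hXconj x hx g)
    | one => simpa using one_mem N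
    | mul x y _ _ hx hy =>
        have : g * (x * y) * g⁻¹ = (g * x * g⁻¹) * (g * y * g⁻¹) := by group
        rw [this]
        exact mul_mem hx hy
    | inv x _ hx =>
        have : g * x⁻¹ * g⁻¹ = (g * x * g⁻¹)⁻¹ := by group
        rw [this]
        exact inv_mem hx
  have hle : N ≤ derivedSeries Λ j := by
    rw [Subgroup.closure_le]
    exact fun x hx => hx.1
  have hXgr : ∀ l ∈ X, ‖∑ i, π i * (θ l : V →L[ℝ] V) * π i - 1‖ ≤ 1 / 16 := fun l hl =>
    hsmall l hl.1 hl.2.1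
  -- finite index
  have hidx : N.relIndex (derivedSeries Λ j) ≠ 0 := by
    set M : ℝ := ‖F‖ * C1 with hM
    have hM0 : 0 ≤ M := by positivity
    refine h5 V Λ (derivedSeries Λ j) N (gr θ π) C1 (η / (M + 1)) hb1 (by positivity) ?_
    intro d hd e he hde
    have key : ∀ a ∈ derivedSeries Λ j, ∀ b ∈ derivedSeries Λ j,
        ‖gr θ π a - gr θ π b‖ < η / (M + 1) →
        |(Module.finrank ℝ V : ℝ) - F (gr θ π (a⁻¹ * b))| ≤ η := by
      intro a ha b hb' hab
      have e1 : (Module.finrank ℝ V : ℝ) - F (gr θ π (a⁻¹ * b)) =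
          F (gr θ π a⁻¹ * (gr θ π a - gr θ π b)) := by
        rw [mul_sub, ← gr_mul hS hU, ← gr_mul hS hU, inv_mul_cancel, gr_one hS, map_sub, hF1]
      rw [e1]
      have e3 : ‖gr θ π a⁻¹ * (gr θ π a - gr θ π b)‖ ≤ C1 * (η / (M + 1)) := by
        refine (norm_mul_le _ _).trans ?_
        exact mul_le_mul (hb1 _ (inv_mem ha)) hab.le (norm_nonneg _) hC10
      calc |F (gr θ π a⁻¹ * (gr θ π a - gr θ π b))|
          ≤ ‖F‖ * ‖gr θ π a⁻¹ * (gr θ π a - gr θ π b)‖ := hFb _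
        _ ≤ ‖F‖ * (C1 * (η / (M + 1))) := mul_le_mul_of_nonneg_left e3 F.opNorm_nonneg
        _ = M / (M + 1) * η := by rw [hM]; ring
        _ ≤ 1 * η := by
            refine mul_le_mul_of_nonneg_right ?_ hη0.le
            rw [div_le_one (by positivity)]
            linarith
        _ = η := one_mul _
    apply Subgroup.subset_closure
    refine ⟨mul_mem (inv_mem hd) he, key d hd e he hde, ?_⟩
    rw [mul_inv_rev, inv_inv]
    exact key e he d hd (by rw [← norm_neg, neg_sub]; exact hde)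
  -- solvability
  have hsol : Group.IsSolvable N := by
    have hfin : FiniteDimensional ℂ (V →ₗ[ℝ] ℂ) := Module.Finite.of_restrictScalars_finite ℝ ℂ _
    have hT := h2 (V →ₗ[ℝ] ℂ) Λ (dualRep θ) X ?_ ?_
    · have h8 := h3 (V →ₗ[ℝ] ℂ) Λ (dualRep θ) X hT
      have h9 : Function.Injective (((dualRep θ).comp N.subtype).codRestrict
          (N.map (dualRep θ)) (fun n => ⟨n, n.2, rfl⟩)) := by
        intro a b hab
        have : dualRep θ (a : Λ) = dualRep θ (b : Λ) := congrArg Subtype.val hab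
        exact Subtype.ext (dualRep_inj θ hinj this)
      exact Group.isSolvable_of_isSolvable_injective h9
    · intro F' hF' hfinF
      obtain ⟨k, hk⟩ := (h1 V Λ θ hD m π hS hU F' hfinF fun f hf => hXgr f (hF' hf)).1
      refine ⟨k, fun x hx => ?_⟩
      have : x = 1 := hinj (by rw [hk x hx, map_one])
      rw [this, map_one]
    · intro x hx μ w hw hμ
      have := (h1 V Λ θ hD m π hS hU {x⁻¹} (Set.finite_singleton _) (by
        intro f hf
        rw [Set.mem_singleton_iff.mp hf]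
        exact hXgr _ (hXinv x hx))).2 x⁻¹ rfl w μ hw (ev_of_ev θ x μ w hμ)
      exact this
  exact h6 Λ N j hsol hle hidx

theorem t_vs2 (h1 : S_ZAS) (h2 : S_TRIA) (h3 : S_TRIB) (h5 : S_IDX) (h6 : S_GRP2) (h7 : S_TR) :
    S_VS2 := by
  intro V _ _ _ Λ _ θ m π hD hS hU hB
  obtain ⟨C, hC1, hC2⟩ := vs2_inj h1 h2 h3 h5 h6 h7 V θ.range θ.range.subtype m π
    Subtype.val_injective
    (by
      obtain ⟨ε, hε, h⟩ := hD
      refine ⟨ε, hε, ?_⟩
      rintro ⟨_, l, rfl⟩ hl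
      exact h l hl)
    hS
    (by
      rintro ⟨_, l, rfl⟩ i j hij
      exact hU l i j hij)
    (by
      obtain ⟨j, K, h⟩ := hB
      refine ⟨j, K, fun x hx i => ?_⟩
      rw [← map_derivedSeries_eq θ.rangeRestrict_surjective j] at hx
      obtain ⟨l, hl, rfl⟩ := hx
      exact h l hl i)
  refine ⟨C.comap θ.rangeRestrict, ?_, ?_⟩
  · refine ⟨?_⟩
    rw [Subgroup.index_comap_of_surjective C θ.rangeRestrict_surjective]
    exact hC1.index_ne_zero
  · have h8 : ∀ c : C, ((c : θ.range) : (V →L[ℝ] V)ˣ) ∈ (C.comap θ.rangeRestrict).map θ := by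
      rintro ⟨⟨_, l, rfl⟩, hc⟩
      exact ⟨l, hc, rfl⟩
    have h9 : Function.Surjective ((θ.range.subtype.comp C.subtype).codRestrict
        ((C.comap θ.rangeRestrict).map θ) h8) := by
      rintro ⟨_, l, hl, rfl⟩
      exact ⟨⟨⟨θ l, l, rfl⟩, hl⟩, rfl⟩
    exact Group.isSolvable_of_surjective h9

end Pool.Agent.N494.RO
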